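import Pool.Agent.Lib.MP_64a6bd_pr.Core

/-!
# A zero-one law for jamming

In the traffic model with any car density `p`, almost surely every car (of either type) is eventually jammed, or almost
surely no car is.
-/

open MeasureTheory Filter ProbabilityTheory

namespace Pool.Agent.Results.MP_64a6bd_pr.JamZeroOne

open Pool.Agent.Lib.MP_64a6bd_pr

theorem result (p : ℝ) (Ω : Type) [MeasurableSpace Ω] (P : Measure Ω) [IsProbabilityMeasure P]
    (c : ℤ × ℤ → Ω → Fin 3) (h : Setting p Ω P c) :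
    (∀ᵐ ω ∂P, ∀ x, c x ω ≠ 0 → Jammed (fun y => c y ω) x) ∨
      (∀ᵐ ω ∂P, ∀ x, c x ω ≠ 0 → ¬ Jammed (fun y => c y ω) x) :=
  h.zero_one_jam

end Pool.Agent.Results.MP_64a6bd_pr.JamZeroOne
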