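import Pool.Agent.Lib.MP_64a6bd_pr.Delay

/-!
# Free flow is never perfect: logarithmic delays

In the traffic model with any car density `p`, with `t - X_c(t)` the number of cycles among the first `t` in which the car
`c` does not move: the mean of this delay is at least of order `log t`; almost surely all cars of one of the two types have
delays that exceed a multiple of `log t` infinitely often; and almost surely all cars of a type are blocked infinitely often,
or almost surely no car of the other type has the free-flow limiting velocity.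
-/

open MeasureTheory Filter ProbabilityTheory

namespace Pool.Agent.Results.MP_64a6bd_pr.LogDelay

open Pool.Agent.Lib.MP_64a6bd_pr

theorem result (p : ℝ) (Ω : Type) [MeasurableSpace Ω] (P : Measure Ω) [IsProbabilityMeasure P]
    (c : ℤ × ℤ → Ω → Fin 3) (h : Setting p Ω P c) :
    -- mean delay of a car started at `x`
    (∀ (x : ℤ × ℤ) (t : ℕ),
      p ^ 2 / 5 * Real.log t ≤ ∫ ω in {ω | c x ω ≠ 0}, ((t : ℝ) - moves (fun y => c y ω) x t) ∂P ∧
      ∀ ε : ℝ, 0 < ε → ε < 1 → (1 - ε) * (p / 2) * (Real.log t / Real.log (4 / (ε ^ 2 * p) + 3) - 1) ≤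
        ∫ ω in {ω | c x ω ≠ 0}, ((t : ℝ) - moves (fun y => c y ω) x t) ∂P) ∧
    -- almost sure delays of all cars of one of the two types
    (∃ a : Fin 3, a ≠ 0 ∧ ∀ κ : ℝ,
      (κ ≤ p / 5 ∨ ∃ ε : ℝ, 0 < ε ∧ ε < 1 ∧ κ ≤ (1 - ε) / (2 * Real.log (4 / (ε ^ 2 * p) + 3))) →
      ∀ᵐ ω ∂P, ∀ x, c x ω = a → ∀ C : ℝ, ∃ t : ℕ,
        (moves (fun y => c y ω) x t : ℝ) + κ * Real.log t + C < t) ∧
    -- infinitely many blocks, or no free flow for the other type
    (∀ a b : Fin 3, a ≠ 0 → b ≠ 0 → a ≠ b →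
      (∀ᵐ ω ∂P, ∀ x, c x ω = a → ∀ C : ℝ, ∃ t : ℕ, (moves (fun y => c y ω) x t : ℝ) + C < t) ∨
      (∀ᵐ ω ∂P, ∀ x, c x ω = b → ¬ FreeFlow (fun y => c y ω) x)) :=
  ⟨h.mean_log, h.log_delay, fun a b ha hb hab => h.dichotomy a b ha hb hab⟩

end Pool.Agent.Results.MP_64a6bd_pr.LogDelay
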