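import Pool.Agent.Lib.MP_64a6bd_pr.Core

/-!
# Lower speeds are at most `2 (1 - p) / p`

For every car density `p`, almost surely every car has lower speed at most `2 (1 - p) / p`; for `p > 2/3` this is less
than `1`, so no car has the free-flow velocity.
-/

open MeasureTheory Filter ProbabilityTheory

namespace Pool.Agent.Results.MP_64a6bd_pr.NoFreeFlow

open Pool.Agent.Lib.MP_64a6bd_pr

theorem result (p : ℝ) (Ω : Type) [MeasurableSpace Ω] (P : Measure Ω) [IsProbabilityMeasure P]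
    (c : ℤ × ℤ → Ω → Fin 3) (h : Setting p Ω P c) :
    ∀ᵐ ω ∂P, ∀ x, c x ω ≠ 0 → ∀ q : ℝ, 2 * (1 - p) / p < q →
      ∀ C : ℝ, ∃ t : ℕ, (moves (fun y => c y ω) x t : ℝ) < q * t - C :=
  h.slow_all

end Pool.Agent.Results.MP_64a6bd_pr.NoFreeFlow
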