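import Pool.Agent.Lib.MP_64a6bd_pr.Core

/-!
# A zero-one law for the speeds of the cars

In the traffic model with any car density `p`, for each type of cars and every function `g`: almost surely all cars of this
type make at most (at least) `g t + O(1)` (`g t - O(1)`) moves in `t` cycles, or almost surely none does.
-/

open MeasureTheory Filter ProbabilityTheory

namespace Pool.Agent.Results.MP_64a6bd_pr.ZeroOneLaws

open Pool.Agent.Lib.MP_64a6bd_pr

theorem result (p : ℝ) (Ω : Type) [MeasurableSpace Ω] (P : Measure Ω) [IsProbabilityMeasure P]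
    (c : ℤ × ℤ → Ω → Fin 3) (h : Setting p Ω P c) :
    ∀ a : Fin 3, a ≠ 0 → ∀ g : ℕ → ℝ,
      ((∀ᵐ ω ∂P, ∀ x, c x ω = a → AtMost g (fun y => c y ω) x) ∨
        (∀ᵐ ω ∂P, ∀ x, c x ω = a → ¬ AtMost g (fun y => c y ω) x)) ∧
      ((∀ᵐ ω ∂P, ∀ x, c x ω = a → AtLeast g (fun y => c y ω) x) ∨
        (∀ᵐ ω ∂P, ∀ x, c x ω = a → ¬ AtLeast g (fun y => c y ω) x)) :=
  fun a ha g => h.zero_one_moves a ha g

end Pool.Agent.Results.MP_64a6bd_pr.ZeroOneLaws
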